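import Mathlib

set_option autoImplicit false

namespace Pool.Agent.H354Z.QP

/-- A Q-point: a non-principal ultrafilter on `ℕ` such that every partition of `ℕ` into finite
sets has a member of the ultrafilter meeting each piece in at most one point. -/
def IsQPoint (U : Ultrafilter ℕ) : Prop :=
  (∀ n : ℕ, ({n} : Set ℕ) ∉ U) ∧
    ∀ P : Set (Set ℕ), Setoid.IsPartition P → (∀ p ∈ P, p.Finite) →
      ∃ X ∈ U, ∀ p ∈ P, (X ∩ p).Subsingleton

/-- `U` and `V` are isomorphic: for some permutation `f` of `ℕ`, `V = {f[X] : X ∈ U}`. -/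
def Iso (U V : Ultrafilter ℕ) : Prop :=
  ∃ f : Equiv.Perm ℕ, ∀ Y : Set ℕ, Y ∈ V ↔ ∃ X ∈ U, f '' X = Y

/-- The set of isomorphism classes of Q-points. -/
def qClasses : Set (Set (Ultrafilter ℕ)) :=
  {C | ∃ U, IsQPoint U ∧ C = {V | Iso U V}}

end Pool.Agent.H354Z.QP
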