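import Pool.Agent.H354Z.QP.Rec

set_option autoImplicit false

namespace Pool.Agent.H354Z.QP

open Cardinal Set Filter

theorem iso_iff {U V : Ultrafilter ℕ} : Iso U V ↔ ∃ h : Equiv.Perm ℕ, U.map h = V := by
  have key : ∀ (h : Equiv.Perm ℕ) (Y : Set ℕ), Y ∈ U.map h ↔ ∃ X ∈ U, h '' X = Y := by
    intro h Y
    rw [Ultrafilter.mem_map]
    constructor
    · intro hY
      exact ⟨_, hY, image_preimage_eq Y h.surjective⟩
    · rintro ⟨X, hX, rfl⟩
      rwa [preimage_image_eq X h.injective]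
  constructor
  · rintro ⟨h, hh⟩
    refine ⟨h, Ultrafilter.ext (fun Y => ?_)⟩
    rw [key, hh]
  · rintro ⟨h, rfl⟩
    exact ⟨h, key h⟩

theorem iso_refl (U : Ultrafilter ℕ) : Iso U U :=
  iso_iff.mpr ⟨Equiv.refl ℕ, Ultrafilter.map_id U⟩

theorem iso_trans {U V X : Ultrafilter ℕ} (h1 : Iso U V) (h2 : Iso V X) : Iso U X := by
  obtain ⟨a, rfl⟩ := iso_iff.mp h1
  obtain ⟨b, rfl⟩ := iso_iff.mp h2
  exact iso_iff.mpr ⟨a.trans b, by rw [Ultrafilter.map_map]; rfl⟩

theorem iso_symm {U V : Ultrafilter ℕ} (h1 : Iso U V) : Iso V U := by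
  obtain ⟨a, rfl⟩ := iso_iff.mp h1
  refine iso_iff.mpr ⟨a.symm, ?_⟩
  rw [Ultrafilter.map_map]
  have : (a.symm ∘ a : ℕ → ℕ) = id := by funext x; simp
  rw [this, Ultrafilter.map_id]

theorem infinite_of_mem {U : Ultrafilter ℕ} (hU : ∀ n : ℕ, ({n} : Set ℕ) ∉ U) {X : Set ℕ}
    (hX : X ∈ U) : X.Infinite := by
  intro hf
  obtain ⟨x, _, hx⟩ := Ultrafilter.eq_pure_of_finite_mem hf hX
  apply hU x
  rw [hx]; simp

theorem selector {U : Ultrafilter ℕ} (hU : IsQPoint U) (g : ℕ → ℕ)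
    (hg : ∀ y, (g ⁻¹' {y}).Finite) : ∃ Y ∈ U, InjOn g Y := by
  obtain ⟨X, hX, h⟩ := hU.2 (Setoid.ker g).classes (Setoid.isPartition_classes _) (by
    rintro p ⟨y, rfl⟩
    exact hg (g y))
  refine ⟨X, hX, fun a ha b hb e => ?_⟩
  exact h {x | (Setoid.ker g) x b} ⟨b, rfl⟩ ⟨ha, e⟩ ⟨hb, rfl⟩

theorem iso_of_injOn {U : Ultrafilter ℕ} (hU : ∀ n : ℕ, ({n} : Set ℕ) ∉ U) (φ : ℕ → ℕ)
    {X : Set ℕ} (hX : X ∈ U) (hφ : InjOn φ X) : Iso U (U.map φ) := by
  obtain ⟨X1, h1, h2, h3⟩ : ∃ X1 ∈ U, X1 ⊆ X ∧ (X \ X1).Infinite := by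
    have hinf := infinite_of_mem hU hX
    let e := hinf.natEmbedding
    have ie : ∀ k : ℕ → ℕ, Function.Injective k →
        (range (fun n => (e (k n) : ℕ))).Infinite := fun k hk =>
      infinite_range_of_injective (fun a b hab => hk (e.injective (Subtype.ext hab)))
    let S : Set ℕ := range (fun n => (e (2 * n) : ℕ))
    by_cases hS : S ∈ U
    · refine ⟨S, hS, ?_, ?_⟩
      · rintro _ ⟨n, rfl⟩; exact (e _).2
      · refine (ie (fun n => 2 * n + 1) (fun a b h => by simpa using h)).mono ?_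
        rintro _ ⟨n, rfl⟩
        refine ⟨(e _).2, ?_⟩
        rintro ⟨m, hm⟩
        have := e.injective (Subtype.ext hm)
        omega
    · refine ⟨X ∩ Sᶜ, Filter.inter_mem hX (Ultrafilter.compl_mem_iff_notMem.mpr hS),
        inter_subset_left, ?_⟩
      refine (ie (fun n => 2 * n) (fun a b h => by simpa using h)).mono ?_
      rintro _ ⟨n, rfl⟩
      exact ⟨(e _).2, fun h => h.2 ⟨n, rfl⟩⟩
  let f : X1 ↪ ℕ := ⟨fun x => φ x, fun a b h => Subtype.ext (hφ (h2 a.2) (h2 b.2) h)⟩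
  have i1 : (X1ᶜ).Infinite := h3.mono (fun x hx => hx.2)
  have i2 : ((range f)ᶜ).Infinite := by
    refine (h3.image (hφ.mono sdiff_subset)).mono ?_
    rintro _ ⟨x, hx, rfl⟩ ⟨y, hy⟩
    have : (y : ℕ) = x := hφ (h2 y.2) hx.1 hy
    exact hx.2 (this ▸ y.2)
  obtain ⟨h, hh⟩ := extend_function f (by
    have := i1.to_subtype
    have := i2.to_subtype
    exact nonempty_equiv_of_countable)
  refine iso_iff.mpr ⟨h, ?_⟩
  apply Ultrafilter.coe_injective
  simp only [Ultrafilter.coe_map]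
  exact Filter.map_congr (Filter.mem_of_superset h1 (fun x hx => hh ⟨x, hx⟩))

theorem iso_of_map_eq {U V : Ultrafilter ℕ} (hU : IsQPoint U) (hV : IsQPoint V) (g : ℕ → ℕ)
    (hg : ∀ y, (g ⁻¹' {y}).Finite) (h : U.map g = V.map g) : Iso U V := by
  obtain ⟨X, hX, h1⟩ := selector hU g hg
  obtain ⟨Y, hY, h2⟩ := selector hV g hg
  have a := iso_of_injOn hU.1 g hX h1
  have b := iso_of_injOn hV.1 g hY h2
  rw [h] at a
  exact iso_trans a (iso_symm b)

theorem two_maps (φ : ℕ → ℕ) : ∃ g : Bool → ℕ → ℕ, (∀ c y, (g c ⁻¹' {y}).Finite) ∧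
    ∀ x y, x < y → (∀ c, g c x ≠ g c y) → φ x < y := by
  classical
  let t : ℕ → ℕ := fun i => Nat.rec 0 (fun _ a => a + 1 + (Finset.range (a + 1)).sup φ) i
  have ht : ∀ i, t (i + 1) = t i + 1 + (Finset.range (t i + 1)).sup φ := fun i => rfl
  have hmono : StrictMono t := strictMono_nat_of_lt_succ (fun i => by rw [ht]; omega)
  have ex : ∀ x, ∃ i, x < t (i + 1) := fun x => ⟨x, lt_of_lt_of_le (Nat.lt_succ_self x) hmono.le_apply⟩
  let idx : ℕ → ℕ := fun x => Nat.find (ex x)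
  have h1 : ∀ x, x < t (idx x + 1) := fun x => Nat.find_spec (ex x)
  have h2 : ∀ x i, i < idx x → t (i + 1) ≤ x := fun x i hi => not_lt.mp (Nat.find_min (ex x) hi)
  have h3 : ∀ x y, x < y → idx x ≤ idx y := fun x y hxy =>
    Nat.find_min' (ex x) (lt_trans hxy (h1 y))
  refine ⟨fun c x => if c then (idx x + 1) / 2 else idx x / 2, ?_, ?_⟩
  · intro c y
    refine (finite_Iio (t (2 * y + 2))).subset ?_
    intro x hx
    have : idx x + 1 ≤ 2 * y + 2 := by
      cases c <;> simp at hx <;> omega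
    exact lt_of_lt_of_le (h1 x) (hmono.monotone this)
  · intro x y hxy h
    have a := h false
    have b := h true
    simp at a b
    have c := h3 x y hxy
    have d := h2 y (idx x + 1) (by omega)
    have d' := ht (idx x + 1)
    have e : φ x ≤ (Finset.range (t (idx x + 1) + 1)).sup φ :=
      Finset.le_sup (f := φ) (Finset.mem_range.mpr (by have := h1 x; omega))
    omega

def code (ξ : ℕ → ℕ) (n : ℕ) : ℕ := Encodable.encode ((List.range n).map ξ)

theorem code_eq {ξ η : ℕ → ℕ} {n m : ℕ} (h : code ξ n = code η m) :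
    n = m ∧ ∀ k < n, ξ k = η k := by
  have h1 : (List.range n).map ξ = (List.range m).map η := Encodable.encode_injective h
  have h2 : n = m := by simpa using congrArg List.length h1
  subst h2
  exact ⟨rfl, fun k hk => List.map_inj_left.mp h1 k (List.mem_range.mpr hk)⟩

theorem many (U : ℕ → Ultrafilter ℕ) (hQ : ∀ k, IsQPoint (U k))
    (hI : ∀ k l, Iso (U k) (U l) → k = l) :
    ∃ (D : Set (ℕ → ℕ)) (p : D → Ultrafilter ℕ), ¬ D.Countable ∧ (∀ ξ, IsQPoint (p ξ)) ∧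
      ∀ ξ η, Iso (p ξ) (p η) → ξ = η := by
  classical
  obtain ⟨D, hD, hκ, hmin⟩ := exists_dom
  choose g hg1 hg2 using two_maps
  let T : Type := D × D × D × Bool
  have hT : #T = #D := by
    simp only [T, mk_prod, lift_id, mk_bool]
    have h2 : (2 : Cardinal) ≤ #D := le_trans (natCast_lt_aleph0 (n := 2)).le hκ.le
    rw [mul_eq_left hκ.le h2 (by norm_num), mul_eq_self hκ.le, mul_eq_self hκ.le]
  let u : D → D → ℕ × Bool → Ultrafilter ℕ := fun ξ η i =>
    U (code (if i.2 then η.1 else ξ.1) i.1)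
  obtain ⟨W, hW⟩ := recur T (fun t B => t.2.1 ≠ t.2.2.1 → ∃ X : Bool → Set ℕ,
      Disjoint (X false) (X true) ∧ InjOn (g t.1 t.2.2.2) (X false ∪ X true) ∧
      ∀ n ∈ B, ∀ c, X c ∈ u t.2.1 t.2.2.1 (n, c)) (by
    rintro I A hIc hA ⟨φ, ξ, η, c⟩
    by_cases hne : ξ = η
    · exact ⟨univ, fun h => absurd hne h, fun s k => by
        obtain ⟨m, a, b⟩ := hA s k
        exact ⟨m, a, trivial, b⟩⟩
    · have hne2 : ξ.1 ≠ η.1 := fun e => hne (Subtype.ext e)
      obtain ⟨N, hN⟩ := Function.ne_iff.mp hne2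
      obtain ⟨B, h1, h2⟩ := step_pair (#D) hκ hmin A (hT ▸ hIc) hA (u ξ η) (g φ c) (N + 1)
        (fun i => selector (hQ _) _ (hg1 _ _)) (by
          rintro ⟨n, a⟩ ⟨m, b⟩ hn hm e
          obtain ⟨e1, e2⟩ := code_eq (hI _ _ (iso_of_map_eq (hQ _) (hQ _) _ (hg1 _ _) e))
          simp only at e1 hn hm
          have e3 := e2 N (by simpa using hn)
          subst e1
          cases a <;> cases b <;> simp at e3 ⊢
          · exact hN e3
          · exact hN e3.symm)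
      exact ⟨B, fun _ => h1, h2⟩)
  let p : D → Ultrafilter ℕ := fun ξ => W.bind (fun n => U (code ξ.1 n))
  have hp : ∀ (ξ : D) (X : Set ℕ), X ∈ p ξ ↔ {n | X ∈ U (code ξ.1 n)} ∈ W := fun ξ X =>
    Filter.mem_bind'
  have pair : ∀ ξ η : D, ξ ≠ η → ∀ ψ : ℕ → ℕ, ∃ X ∈ p ξ, ∃ Y ∈ p η, Disjoint X Y ∧
      ∀ x ∈ X ∪ Y, ∀ y ∈ X ∪ Y, x < y → ψ x < y := by
    intro ξ η hne ψ
    obtain ⟨φ, hφ, hψ⟩ := hD ψ
    have h1 : ∀ c, ∃ X ∈ p ξ, ∃ Y ∈ p η, Disjoint X Y ∧ InjOn (g φ c) (X ∪ Y) := by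
      intro c
      obtain ⟨B, hB, h⟩ := hW (⟨φ, hφ⟩, ξ, η, c)
      obtain ⟨X, a, b, d⟩ := h hne
      refine ⟨X false, ?_, X true, ?_, a, b⟩
      · rw [hp]; exact Filter.mem_of_superset hB (fun n hn => d n hn false)
      · rw [hp]; exact Filter.mem_of_superset hB (fun n hn => d n hn true)
    choose X hX Y hY h2 h3 using h1
    refine ⟨X false ∩ X true, Filter.inter_mem (hX _) (hX _), Y false ∩ Y true,
      Filter.inter_mem (hY _) (hY _), (h2 false).mono inter_subset_left inter_subset_left, ?_⟩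
    intro x hx y hy hxy
    refine lt_of_le_of_lt (hψ x) (hg2 φ x y hxy (fun c e => hxy.ne (h3 c ?_ ?_ e)))
    · cases c <;> rcases hx with h | h
      exacts [Or.inl h.1, Or.inr h.1, Or.inl h.2, Or.inr h.2]
    · cases c <;> rcases hy with h | h
      exacts [Or.inl h.1, Or.inr h.1, Or.inl h.2, Or.inr h.2]
  have hunc : ¬ D.Countable := by
    rw [← Cardinal.le_aleph0_iff_set_countable, not_le]; exact hκ
  refine ⟨D, p, hunc, fun ξ => ⟨?_, ?_⟩, ?_⟩
  · intro n hn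
    rw [hp] at hn
    obtain ⟨k, hk⟩ := Ultrafilter.nonempty_of_mem hn
    exact (hQ _).1 n hk
  · intro P hP hfin
    have : Infinite D := Cardinal.infinite_iff.mpr hκ.le
    obtain ⟨η, hη⟩ := exists_ne ξ
    have h1 : ∀ x, ∃ b, ∀ q ∈ P, x ∈ q → ∀ y ∈ q, y ≤ b := by
      intro x
      obtain ⟨q, ⟨a1, a2⟩, hq⟩ := hP.2 x
      obtain ⟨b, hb⟩ := (hfin q a1).bddAbove
      refine ⟨b, fun q' b1 b2 y hy => hb ?_⟩
      rw [← hq q' ⟨b1, b2⟩]; exact hy
    choose ψ hψ using h1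
    obtain ⟨X, hX, Y, _, _, h⟩ := pair ξ η hη.symm ψ
    refine ⟨X, hX, fun q hq x hx y hy => ?_⟩
    by_contra hne
    rcases lt_or_gt_of_ne hne with e | e
    · have := h x (Or.inl hx.1) y (Or.inl hy.1) e
      have := hψ x q hq hx.2 y hy.2
      omega
    · have := h y (Or.inl hy.1) x (Or.inl hx.1) e
      have := hψ y q hq hy.2 x hx.2
      omega
  · intro ξ η hiso
    by_contra hne
    obtain ⟨h, hh⟩ := iso_iff.mp hiso
    obtain ⟨X, hX, Y, hY, hd, hs⟩ := pair ξ η hne (fun x => max (h x) (h.symm x))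
    rw [← hh, Ultrafilter.mem_map] at hY
    obtain ⟨x, h1, h2⟩ := Ultrafilter.nonempty_of_mem (Filter.inter_mem hX hY)
    have hne2 : x ≠ h x := fun e => Set.disjoint_left.mp hd h1 (e ▸ h2)
    rcases lt_or_gt_of_ne hne2 with e | e
    · have := hs x (Or.inl h1) (h x) (Or.inr h2) e
      simp at this
    · have := hs (h x) (Or.inr h2) x (Or.inl h1) e
      simp at this

theorem finite_or_uncountable : qClasses.Finite ∨ ¬ qClasses.Countable := by
  by_contra hc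
  push Not at hc
  obtain ⟨hinf, hcount⟩ := hc
  let e := Set.Infinite.natEmbedding _ hinf
  have h1 : ∀ k, ∃ U, IsQPoint U ∧ (e k : Set (Ultrafilter ℕ)) = {V | Iso U V} := fun k => (e k).2
  choose U hU1 hU2 using h1
  obtain ⟨D, p, hD, hp1, hp2⟩ := many U hU1 (by
    intro k l h
    apply e.injective
    apply Subtype.ext
    rw [hU2, hU2]
    ext V
    exact ⟨fun a => iso_trans (iso_symm h) a, fun a => iso_trans h a⟩)
  apply hD
  have := hcount.to_subtype
  rw [← Set.countable_coe_iff]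
  apply Function.Injective.countable
    (f := fun ξ : D => (⟨{V | Iso (p ξ) V}, p ξ, hp1 ξ, rfl⟩ : qClasses))
  intro ξ η h
  apply hp2
  have : {V | Iso (p ξ) V} = {V | Iso (p η) V} := congrArg Subtype.val h
  have h2 : p η ∈ {V | Iso (p η) V} := iso_refl _
  rw [← this] at h2
  exact h2

end Pool.Agent.H354Z.QP
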