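import Pool.Agent.H354Z.QP.Defs

set_option autoImplicit false

namespace Pool.Agent.H354Z.QP

open Cardinal Set Filter

def Fip {I : Type} (A : I → Set ℕ) : Prop :=
  ∀ (s : Finset I) (k : ℕ), ∃ m, k ≤ m ∧ ∀ i ∈ s, m ∈ A i

def Pos {I : Type} (A : I → Set ℕ) (B : Set ℕ) : Prop :=
  ∀ (s : Finset I) (k : ℕ), ∃ m, k ≤ m ∧ m ∈ B ∧ ∀ i ∈ s, m ∈ A i

theorem exists_ultra {I : Type} {A : I → Set ℕ} (h : Fip A) :
    ∃ W : Ultrafilter ℕ, (∀ i, A i ∈ W) ∧ ∀ k, Ici k ∈ W := by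
  classical
  obtain ⟨W, hW⟩ := Ultrafilter.exists_ultrafilter_of_finite_inter_nonempty
    (range A ∪ range (fun k : ℕ => Ici k)) (by
      intro T hT
      have h1 : ∀ t ∈ T, ∃ p : Finset I × ℕ, ∀ m, p.2 ≤ m → (∀ i ∈ p.1, m ∈ A i) → m ∈ t := by
        intro t ht
        rcases hT ht with ⟨i, rfl⟩ | ⟨k, rfl⟩
        · exact ⟨({i}, 0), fun m _ hm => hm i (by simp)⟩
        · exact ⟨(∅, k), fun m hm _ => hm⟩
      choose! p hp using h1
      obtain ⟨m, hm1, hm2⟩ := h (T.biUnion (fun t => (p t).1)) (T.sup (fun t => (p t).2))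
      refine ⟨m, fun t ht => hp t ht m ?_ ?_⟩
      · exact le_trans (Finset.le_sup (f := fun t => (p t).2) ht) hm1
      · intro i hi
        exact hm2 i (Finset.mem_biUnion.mpr ⟨t, ht, hi⟩))
  exact ⟨W, fun i => hW (Or.inl ⟨i, rfl⟩), fun k => hW (Or.inr ⟨k, rfl⟩)⟩

theorem recur_aux (κ : Cardinal.{0}) (O : Type) [LinearOrder O] [WellFoundedLT O]
    (hO : ∀ i : O, #(Iio i) < κ) (Good : O → Set ℕ → Prop)
    (step : ∀ (I : Type) (A : I → Set ℕ), #I < κ → Fip A → ∀ t, ∃ B, Good t B ∧ Pos A B) :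
    ∃ A : O → Set ℕ, Fip A ∧ ∀ t, Good t (A t) := by
  classical
  let G : (i : O) → ((j : O) → j < i → Set ℕ) → Set ℕ := fun i prev =>
    if h : Fip (fun j : Iio i => prev j.1 j.2) then
      Classical.choose (step (Iio i) _ (hO i) h i) else ∅
  let F : O → Set ℕ := (wellFounded_lt (α := O)).fix G
  have hF : ∀ i, F i = G i (fun j _ => F j) := fun i => WellFounded.fix_eq _ G i
  have c1 : ∀ i, Fip (fun j : Iio i => F j.1) → Good i (F i) ∧ Pos (fun j : Iio i => F j.1) (F i) := by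
    intro i h
    have := Classical.choose_spec (step (Iio i) _ (hO i) h i)
    rw [hF i]
    simp only [G, dif_pos h]
    exact this
  have c2 : ∀ i, Fip (fun j : Iio i => F j.1) →
      ∀ (s : Finset O), (∀ j ∈ s, j ≤ i) → ∀ k, ∃ m, k ≤ m ∧ ∀ j ∈ s, m ∈ F j := by
    intro i h s hs k
    obtain ⟨m, h1, h2, h3⟩ := (c1 i h).2 (s.subtype (fun j => j ∈ Iio i)) k
    refine ⟨m, h1, fun j hj => ?_⟩
    rcases (hs j hj).lt_or_eq with e | e
    · exact h3 ⟨j, e⟩ (by simpa using hj)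
    · rw [e]; exact h2
  have c3 : ∀ i, Fip (fun j : Iio i => F j.1) := by
    intro i
    induction i using WellFoundedLT.induction with
    | ind i ih =>
      intro s k
      rcases s.eq_empty_or_nonempty with e | e
      · exact ⟨k, le_rfl, by simp [e]⟩
      · obtain ⟨j, hj, hmax⟩ := s.exists_max_image (fun j => j.1) e
        obtain ⟨m, h1, h2⟩ := c2 j.1 (ih j.1 j.2) (s.image (fun j => j.1)) (by
          intro l hl
          obtain ⟨l', hl', rfl⟩ := Finset.mem_image.mp hl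
          exact hmax l' hl') k
        exact ⟨m, h1, fun l hl => h2 l.1 (Finset.mem_image_of_mem _ hl)⟩
  refine ⟨F, ?_, fun t => (c1 t (c3 t)).1⟩
  intro s k
  rcases s.eq_empty_or_nonempty with e | e
  · exact ⟨k, le_rfl, by simp [e]⟩
  · obtain ⟨j, hj, hmax⟩ := s.exists_max_image id e
    exact c2 j (c3 j) s hmax k

theorem recur (T : Type) (Good : T → Set ℕ → Prop)
    (step : ∀ (I : Type) (A : I → Set ℕ), #I < #T → Fip A → ∀ t, ∃ B, Good t B ∧ Pos A B) :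
    ∃ W : Ultrafilter ℕ, ∀ t, ∃ B ∈ W, Good t B := by
  obtain ⟨e⟩ : Nonempty (T ≃ (#T).ord.ToType) := Cardinal.eq.mp (by simp)
  obtain ⟨A, h1, h2⟩ := recur_aux (#T) (#T).ord.ToType
    (fun i => by simpa using mk_Iio_lt i) (fun i => Good (e.symm i))
    (fun I A hI hA t => step I A hI hA (e.symm t))
  obtain ⟨W, hW, _⟩ := exists_ultra h1
  exact ⟨W, fun t => ⟨A (e t), hW _, by simpa using h2 (e t)⟩⟩

def Dom (S : Set (ℕ → ℕ)) : Prop := ∀ f : ℕ → ℕ, ∃ g ∈ S, ∀ n, f n ≤ g n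

theorem exists_dom : ∃ D : Set (ℕ → ℕ), Dom D ∧ ℵ₀ < #D ∧ ∀ S : Set (ℕ → ℕ), #S < #D → ¬ Dom S := by
  obtain ⟨D, hD, hmin⟩ := (InvImage.wf (fun S : Set (ℕ → ℕ) => #S) Cardinal.lt_wf).has_min
    {S | Dom S} ⟨univ, fun f => ⟨f, trivial, fun _ => le_rfl⟩⟩
  refine ⟨D, hD, ?_, fun S hS hdom => hmin S hdom hS⟩
  by_contra hc
  rw [not_lt, Cardinal.le_aleph0_iff_set_countable] at hc
  obtain ⟨g0, hg0, _⟩ := hD (fun _ => 0)
  obtain ⟨u, hu⟩ := hc.exists_eq_range ⟨g0, hg0⟩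
  obtain ⟨g, hg, h⟩ := hD (fun n => u n n + 1)
  rw [hu] at hg
  obtain ⟨n, rfl⟩ := hg
  have := h n
  omega

theorem ketonen (κ : Cardinal.{0}) (hκ : ℵ₀ < κ) (hd : ∀ S : Set (ℕ → ℕ), #S < κ → ¬ Dom S)
    {I : Type} (A : I → Set ℕ) (hI : #I < κ) (W : Ultrafilter ℕ) (hA : ∀ i, A i ∈ W)
    (hk : ∀ k, Ici k ∈ W) (M : Set ℕ) (hM : M ∈ W) (Z : ℕ → Set ℕ) (hZ : ∀ n, Z n ∉ W) :
    ∃ B ⊆ M, Pos A B ∧ ∀ n, (B ∩ Z n).Finite := by
  classical
  have ex : ∀ m, ∃ n, m ∈ Z n ∨ n = m := fun m => ⟨m, Or.inr rfl⟩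
  let ζ : ℕ → ℕ := fun m => Nat.find (ex m)
  have hζ : ∀ j, {m | j ≤ ζ m} ∈ W := by
    intro j
    have h1 : (⋂ n ∈ Finset.range j, (Z n)ᶜ) ∩ Ici j ∈ (W : Filter ℕ) := by
      apply Filter.inter_mem _ (hk j)
      rw [Filter.biInter_finset_mem]
      intro n _
      exact Ultrafilter.compl_mem_iff_notMem.mpr (hZ n)
    refine Filter.mem_of_superset h1 ?_
    rintro m ⟨h2, h3⟩
    simp only [mem_iInter, Finset.mem_range, mem_compl_iff] at h2
    show j ≤ Nat.find (ex m)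
    rw [Nat.le_find_iff]
    intro n hn
    rintro (h | h)
    · exact h2 n hn h
    · simp only [mem_Ici] at h3; omega
  have h1 : ∀ (p : Finset I × ℕ) (j : ℕ), ∃ m, j ≤ ζ m ∧ m ∈ M ∧ p.2 ≤ m ∧ ∀ i ∈ p.1, m ∈ A i := by
    intro p j
    have : {m | j ≤ ζ m} ∩ (M ∩ (Ici p.2 ∩ ⋂ i ∈ p.1, A i)) ∈ (W : Filter ℕ) := by
      refine Filter.inter_mem (hζ j) (Filter.inter_mem hM (Filter.inter_mem (hk _) ?_))
      rw [Filter.biInter_finset_mem]
      exact fun i _ => hA i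
    obtain ⟨m, a, b, c, d⟩ := Ultrafilter.nonempty_of_mem this
    exact ⟨m, a, b, c, by simpa using d⟩
  choose φ hφ using h1
  have hc : #(range φ) < κ := by
    refine lt_of_le_of_lt mk_range_le ?_
    rw [mk_prod, lift_id, lift_id, mk_nat]
    apply mul_lt_of_lt hκ.le _ hκ
    rcases finite_or_infinite I with hf | hf
    · exact lt_trans (lt_aleph0_of_finite _) hκ
    · rwa [mk_finset_of_infinite]
  have h2 := hd _ hc
  unfold Dom at h2
  push Not at h2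
  obtain ⟨h0, hh0⟩ := h2
  let h : ℕ → ℕ := fun j => (Finset.range (j + 1)).sup h0
  have hmono : ∀ a b, a ≤ b → h0 a ≤ h b := fun a b hab =>
    Finset.le_sup (f := h0) (Finset.mem_range.mpr (by omega))
  have hmono2 : ∀ a b, a ≤ b → h a ≤ h b := fun a b hab =>
    Finset.sup_mono (Finset.range_subset_range.mpr (by omega))
  refine ⟨{m | m ∈ M ∧ m ≤ h (ζ m)}, fun m hm => hm.1, ?_, ?_⟩
  · intro s k
    obtain ⟨j, hj⟩ := hh0 (φ (s, k)) ⟨_, rfl⟩
    obtain ⟨a, b, c, d⟩ := hφ (s, k) j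
    exact ⟨φ (s, k) j, c, ⟨b, le_trans hj.le (hmono _ _ a)⟩, d⟩
  · intro n
    refine (finite_Iic (h n)).subset ?_
    rintro m ⟨⟨_, a⟩, b⟩
    exact le_trans a (hmono2 _ _ (Nat.find_min' (ex m) (Or.inl b)))

theorem sep {U V : Ultrafilter ℕ} (h : U ≠ V) : ∃ S ∈ U, S ∉ V := by
  by_contra hc
  push Not at hc
  apply h
  exact (Ultrafilter.coe_le_coe.mp (fun S hS => hc S hS)).symm

theorem discrete {ι : Type} [Countable ι] (r : ι → Ultrafilter ℕ) (A : Set ι) (hinj : InjOn r A)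
    (h : ∀ i ∈ A, ∃ C ∈ r i, {j | j ∈ A ∧ C ∈ r j}.Finite) :
    ∃ D : ι → Set ℕ, (∀ i ∈ A, D i ∈ r i) ∧ ∀ i ∈ A, ∀ j ∈ A, i ≠ j → Disjoint (D i) (D j) := by
  obtain ⟨enc, henc⟩ := exists_injective_nat ι
  have h1 : ∀ i ∈ A, ∃ E ∈ r i, ∀ j ∈ A, j ≠ i → E ∉ r j := by
    intro i hi
    obtain ⟨C, hC, hfin⟩ := h i hi
    have h2 : ∀ j, ∃ S ∈ r i, j ∈ A → j ≠ i → S ∉ r j := by
      intro j
      by_cases hj : j ∈ A ∧ j ≠ i
      · obtain ⟨S, a, b⟩ := sep (U := r i) (V := r j) (fun e => hj.2 (hinj hj.1 hi e.symm))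
        exact ⟨S, a, fun _ _ => b⟩
      · exact ⟨univ, Filter.univ_mem, fun a b => absurd ⟨a, b⟩ hj⟩
    choose S hS1 hS2 using h2
    refine ⟨C ∩ ⋂ j ∈ {j | j ∈ A ∧ C ∈ r j}, S j, ?_, ?_⟩
    · exact Filter.inter_mem hC ((Filter.biInter_mem hfin).mpr (fun j _ => hS1 j))
    · intro j hj hji hmem
      have a : C ∈ r j := Filter.mem_of_superset hmem inter_subset_left
      apply hS2 j hj hji
      refine Filter.mem_of_superset hmem ?_
      exact inter_subset_right.trans (biInter_subset_of_mem (show j ∈ {j | j ∈ A ∧ C ∈ r j} from ⟨hj, a⟩))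
  choose! E hE1 hE2 using h1
  have key : ∀ i ∈ A, ∀ j ∈ A, enc j < enc i →
      Disjoint (E i ∩ ⋂ l ∈ {l | l ∈ A ∧ enc l < enc i}, (E l)ᶜ)
        (E j ∩ ⋂ l ∈ {l | l ∈ A ∧ enc l < enc j}, (E l)ᶜ) := by
    intro i _ j hj hlt
    rw [Set.disjoint_left]
    rintro x ⟨_, h2⟩ ⟨h3, _⟩
    exact (mem_iInter₂.mp h2 j ⟨hj, hlt⟩) h3
  refine ⟨fun i => E i ∩ ⋂ l ∈ {l | l ∈ A ∧ enc l < enc i}, (E l)ᶜ, ?_, ?_⟩
  · intro i hi
    have hfin : {l | l ∈ A ∧ enc l < enc i}.Finite :=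
      ((finite_Iio (enc i)).preimage henc.injOn).subset (fun l hl => hl.2)
    refine Filter.inter_mem (hE1 i hi) ((Filter.biInter_mem hfin).mpr ?_)
    intro l hl
    exact Ultrafilter.compl_mem_iff_notMem.mpr
      (hE2 l hl.1 i hi (fun e => by rw [e] at hl; exact lt_irrefl _ hl.2))
  · intro i hi j hj hij
    rcases lt_or_gt_of_ne (fun e => hij (henc e)) with h | h
    · exact (key j hj i hi h).symm
    · exact key i hi j hj h

theorem step_pair (κ : Cardinal.{0}) (hκ : ℵ₀ < κ) (hd : ∀ S : Set (ℕ → ℕ), #S < κ → ¬ Dom S)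
    {I : Type} (A : I → Set ℕ) (hI : #I < κ) (hA : Fip A)
    (u : ℕ × Bool → Ultrafilter ℕ) (g : ℕ → ℕ) (N : ℕ) (hQ : ∀ i, ∃ Y ∈ u i, InjOn g Y)
    (hinj : ∀ i j, N ≤ i.1 → N ≤ j.1 → (u i).map g = (u j).map g → i = j) :
    ∃ B, (∃ X : Bool → Set ℕ, Disjoint (X false) (X true) ∧ InjOn g (X false ∪ X true) ∧
      ∀ n ∈ B, ∀ c, X c ∈ u (n, c)) ∧ Pos A B := by
  obtain ⟨W, hW1, hW2⟩ := exists_ultra hA
  let r : ℕ × Bool → Ultrafilter ℕ := fun i => (u i).map g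
  let p : Bool → Ultrafilter ℕ := fun c => W.bind (fun n => r (n, c))
  let M : Set ℕ := {n | N ≤ n ∧ ∀ c c', r (n, c) ≠ p c'}
  have hM : M ∈ W := by
    have hfin : ∀ c c', {n | N ≤ n ∧ r (n, c) = p c'}.Finite := by
      intro c c'
      apply Set.Subsingleton.finite
      rintro a ⟨a1, a2⟩ b ⟨b1, b2⟩
      have := hinj (a, c) (b, c) a1 b1 (a2.trans b2.symm)
      exact congrArg Prod.fst this
    have hfin2 : (⋃ c, ⋃ c', {n | N ≤ n ∧ r (n, c) = p c'}).Finite :=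
      finite_iUnion (fun c => finite_iUnion (fun c' => hfin c c'))
    obtain ⟨b, hb⟩ := hfin2.bddAbove
    refine Filter.mem_of_superset (hW2 (N + b + 1)) ?_
    intro n hn
    simp only [mem_Ici] at hn
    refine ⟨by omega, fun c c' e => ?_⟩
    have := hb (mem_iUnion.mpr ⟨c, mem_iUnion.mpr ⟨c', ⟨by omega, e⟩⟩⟩)
    omega
  have hC : ∀ n, ∃ C : Set ℕ, (n ∈ M → ∀ c, C ∈ r (n, c)) ∧ ∀ c', C ∉ p c' := by
    intro n
    by_cases hn : n ∈ M
    · have h1 : ∀ c c', ∃ S ∈ r (n, c), S ∉ p c' := fun c c' => sep (hn.2 c c')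
      choose S hS1 hS2 using h1
      refine ⟨(S false false ∩ S false true) ∪ (S true false ∩ S true true), ?_, ?_⟩
      · intro _ c
        cases c
        · exact Filter.mem_of_superset (Filter.inter_mem (hS1 _ _) (hS1 _ _)) subset_union_left
        · exact Filter.mem_of_superset (Filter.inter_mem (hS1 _ _) (hS1 _ _)) subset_union_right
      · intro c' hmem
        rw [Ultrafilter.union_mem_iff] at hmem
        cases c' <;> rcases hmem with h | h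
        · exact hS2 _ _ (Filter.mem_of_superset h inter_subset_left)
        · exact hS2 _ _ (Filter.mem_of_superset h inter_subset_left)
        · exact hS2 _ _ (Filter.mem_of_superset h inter_subset_right)
        · exact hS2 _ _ (Filter.mem_of_superset h inter_subset_right)
    · exact ⟨∅, fun h => absurd h hn, fun c' => Ultrafilter.empty_notMem⟩
  choose C hC1 hC2 using hC
  obtain ⟨B, hB1, hB2, hB3⟩ := ketonen κ hκ hd A hI W hW1 hW2 M hM
    (fun n => {m | C n ∈ r (m, false)} ∪ {m | C n ∈ r (m, true)}) (by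
      intro n hmem
      rw [Ultrafilter.union_mem_iff] at hmem
      rcases hmem with h | h
      · exact hC2 n false h
      · exact hC2 n true h)
  obtain ⟨D, hD1, hD2⟩ := discrete r {i | i.1 ∈ B}
    (fun i hi j hj e => hinj i j (hB1 hi).1 (hB1 hj).1 e) (by
      intro i hi
      refine ⟨C i.1, hC1 i.1 (hB1 hi) i.2, ?_⟩
      refine ((hB3 i.1).prod (finite_univ (α := Bool))).subset ?_
      rintro ⟨m, c⟩ ⟨h1, h2⟩
      refine ⟨⟨h1, ?_⟩, trivial⟩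
      cases c
      · exact Or.inl h2
      · exact Or.inr h2)
  choose Y hY1 hY2 using hQ
  let X : Bool → Set ℕ := fun c => {x | ∃ n ∈ B, x ∈ Y (n, c) ∧ g x ∈ D (n, c)}
  have key : ∀ c c' x y, x ∈ X c → y ∈ X c' → g x = g y → c = c' ∧ x = y := by
    rintro c c' x y ⟨n, hn, a1, a2⟩ ⟨m, hm, b1, b2⟩ e
    have : (n, c) = (m, c') := by
      by_contra hne
      exact Set.disjoint_left.mp (hD2 (n, c) hn (m, c') hm hne) a2 (e ▸ b2)
    rw [← this] at b1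
    exact ⟨congrArg Prod.snd this, hY2 _ a1 b1 e⟩
  refine ⟨B, ⟨X, ?_, ?_, ?_⟩, hB2⟩
  · rw [Set.disjoint_left]
    intro x h1 h2
    exact absurd (key _ _ x x h1 h2 rfl).1 (by simp)
  · rintro x (h1 | h1) y (h2 | h2) e <;> exact (key _ _ x y h1 h2 e).2
  · intro n hn c
    have h1 : g ⁻¹' D (n, c) ∈ u (n, c) := hD1 (n, c) hn
    refine Filter.mem_of_superset (Filter.inter_mem (hY1 (n, c)) h1) ?_
    rintro x ⟨a, b⟩
    exact ⟨n, hn, a, b⟩

end Pool.Agent.H354Z.QP
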